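import Pool.Agent.N139.WS.Stm

/-!
# Project WS: FINW, finite groups are weakly C*-stable
-/

set_option autoImplicit false

namespace Pool.Agent.N81.WS

open Filter Topology Pool.Agent.N139.WS

theorem norm_proj_le {B : Type} [NonUnitalCStarAlgebra B] (p : B) (hs : IsSelfAdjoint p)
    (hp : p * p = p) : ‖p‖ ≤ 1 := by
  have h1 : ‖star p * p‖ = ‖p‖ * ‖p‖ := CStarRing.norm_star_mul_self
  rw [hs.star_eq, hp] at h1
  by_contra h
  push Not at h
  nlinarith

theorem half_norm {B : Type} [NonUnitalCStarAlgebra B] (y : B) :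
    ‖(1 / 2 : ℂ) • y‖ = 1 / 2 * ‖y‖ := by
  rw [norm_smul]
  norm_num

theorem half_add_half {B : Type} [NonUnitalCStarAlgebra B] (y : B) :
    (1 / 2 : ℂ) • y + (1 / 2 : ℂ) • y = y := by
  rw [← add_smul]
  norm_num

theorem half_lem {B : Type} [NonUnitalCStarAlgebra B] (a b : B) :
    (1 / 2 : ℂ) • (a + b) - a = (1 / 2 : ℂ) • (b - a) := by
  have h := half_add_half a
  rw [smul_add, smul_sub]
  generalize (1 / 2 : ℂ) • a = c at h ⊢
  rw [← h]
  abel

/-- the finite form -/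
theorem fin_form (hP : S_PRJ) (hN : S_NWT) (F : Type) [Group F] [Finite F] (C ε : ℝ)
    (hC : 1 ≤ C) (hε : 0 < ε) :
    ∃ δ > 0, ∀ (B : Type) [NonUnitalCStarAlgebra B] (u : F → B), (∀ a, ‖u a‖ ≤ C) →
      (∀ a b, ‖u (a * b) - u a * u b‖ ≤ δ) → (∀ a, ‖u a⁻¹ - star (u a)‖ ≤ δ) →
      ∃ v : F → B, Exa v ∧ ∀ a, ‖u a - v a‖ ≤ ε := by
  classical
  have hC0 : 0 < C := by linarith
  refine ⟨min 1 ε / (10000 * C ^ 7), by positivity, ?_⟩
  intro B _ u hb hm hst
  set δ : ℝ := min 1 ε / (10000 * C ^ 7) with hδdef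
  have hδ0 : 0 < δ := by positivity
  set η : ℝ := C ^ 4 * δ with hηdef
  have hη0 : 0 < η := by positivity
  set θ : ℝ := C ^ 3 * η with hθdef
  have hθ : θ = min 1 ε / 10000 := by
    rw [hθdef, hηdef, hδdef]
    field_simp
  have hθ1 : θ ≤ 1 / 10000 := by
    rw [hθ]
    have : min 1 ε ≤ 1 := min_le_left _ _
    linarith
  have hθ2 : θ ≤ ε / 10000 := by
    rw [hθ]
    have : min 1 ε ≤ ε := min_le_right _ _
    linarith
  have hθ0 : 0 < θ := by positivity
  have hC3' : (1 : ℝ) ≤ C ^ 3 := one_le_pow₀ hC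
  have hηθ : η ≤ θ := by rw [hθdef]; nlinarith
  have hη1 : η ≤ 1 / 10000 := hηθ.trans hθ1
  have hC1 : C ≤ C ^ 4 := by
    calc C = C ^ 1 := (pow_one C).symm
      _ ≤ C ^ 4 := pow_le_pow_right₀ hC (by norm_num)
  have hC2 : C ^ 2 ≤ C ^ 4 := pow_le_pow_right₀ hC (by norm_num)
  have hC3 : C ^ 3 ≤ C ^ 4 := pow_le_pow_right₀ hC (by norm_num)
  have hC4 : 1 ≤ C ^ 4 := one_le_pow₀ hC
  have d0 : δ ≤ η := by rw [hηdef]; nlinarith
  have d1 : C * δ ≤ η := by rw [hηdef]; exact mul_le_mul_of_nonneg_right hC1 hδ0.le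
  have d2 : C ^ 2 * δ ≤ η := by rw [hηdef]; exact mul_le_mul_of_nonneg_right hC2 hδ0.le
  have d3 : C ^ 3 * δ ≤ η := by rw [hηdef]; exact mul_le_mul_of_nonneg_right hC3 hδ0.le
  -- the self-adjoint element x
  set x : B := (1 / 2 : ℂ) • (u 1 + star (u 1)) with hx
  have hsx : IsSelfAdjoint x := by
    rw [IsSelfAdjoint, hx, star_smul, star_add, star_star, add_comm]
    congr 1
    simp
  have h11 : ‖u 1 - star (u 1)‖ ≤ δ := by
    have := hst 1
    rwa [inv_one] at this
  have hxu : ‖x - u 1‖ ≤ δ / 2 := by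
    have e : x - u 1 = (1 / 2 : ℂ) • (star (u 1) - u 1) := half_lem _ _
    rw [e, half_norm, norm_sub_rev]
    linarith
  have hu1 : ‖u 1 - u 1 * u 1‖ ≤ δ := by
    have := hm 1 1
    rwa [one_mul] at this
  have hnx : ‖x‖ ≤ C := by
    rw [hx, half_norm]
    have h1 : ‖u 1 + star (u 1)‖ ≤ ‖u 1‖ + ‖star (u 1)‖ := norm_add_le _ _
    rw [norm_star] at h1
    have := hb 1
    linarith
  have hxx : ‖x * x - x‖ ≤ 3 * η := by
    have e : x * x - x = (x - u 1) * x + u 1 * (x - u 1) + (u 1 * u 1 - u 1) + (u 1 - x) := by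
      rw [sub_mul, mul_sub]
      abel
    have n1 : ‖(x - u 1) * x‖ ≤ δ / 2 * C :=
      (norm_mul_le _ _).trans (mul_le_mul hxu hnx (norm_nonneg _) (by positivity))
    have n2 : ‖u 1 * (x - u 1)‖ ≤ C * (δ / 2) :=
      (norm_mul_le _ _).trans (mul_le_mul (hb 1) hxu (norm_nonneg _) (by positivity))
    have n3 : ‖u 1 * u 1 - u 1‖ ≤ δ := by rw [norm_sub_rev]; exact hu1
    have n4 : ‖u 1 - x‖ ≤ δ / 2 := by rw [norm_sub_rev]; exact hxu
    rw [e]
    calc ‖(x - u 1) * x + u 1 * (x - u 1) + (u 1 * u 1 - u 1) + (u 1 - x)‖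
        ≤ ‖(x - u 1) * x‖ + ‖u 1 * (x - u 1)‖ + ‖u 1 * u 1 - u 1‖ + ‖u 1 - x‖ := by
          refine (norm_add_le _ _).trans (add_le_add_left ?_ _)
          refine (norm_add_le _ _).trans (add_le_add_left ?_ _)
          exact norm_add_le _ _
      _ ≤ 3 * η := by nlinarith
  obtain ⟨p, hps, hpp, hpx⟩ := hP B x (3 * η) hsx (by linarith) hxx
  have hpn : ‖p‖ ≤ 1 := norm_proj_le p hps hpp
  have hpu : ‖p - u 1‖ ≤ 7 * η := by
    have e : p - u 1 = (p - x) + (x - u 1) := by abel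
    rw [e]
    refine (norm_add_le _ _).trans ?_
    linarith
  -- symmetrisation
  set us : F → B := fun a => (1 / 2 : ℂ) • (u a + star (u a⁻¹)) with hus
  have hus_near : ∀ a, ‖us a - u a‖ ≤ δ := by
    intro a
    have e : us a - u a = (1 / 2 : ℂ) • (star (u a⁻¹) - u a) := half_lem _ _
    have h := hst a⁻¹
    rw [inv_inv, norm_sub_rev] at h
    rw [e, half_norm]
    linarith
  have hus_star : ∀ a, us a⁻¹ = star (us a) := by
    intro a
    simp only [hus]
    rw [star_smul, star_add, star_star, inv_inv, add_comm (star (u a))]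
    congr 1
    simp
  set w : F → B := fun a => if a = 1 then p else p * us a * p with hw
  have hw1 : w 1 = p := by simp [hw]
  have hwa : ∀ a, a ≠ 1 → w a = p * us a * p := fun a ha => by simp [hw, ha]
  have hwp : ∀ a, p * w a = w a := by
    intro a
    by_cases ha : a = 1
    · rw [ha, hw1, hpp]
    · rw [hwa a ha, ← mul_assoc, ← mul_assoc, hpp]
  have hwp' : ∀ a, w a * p = w a := by
    intro a
    by_cases ha : a = 1
    · rw [ha, hw1, hpp]
    · rw [hwa a ha, mul_assoc, hpp]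
  have hws : ∀ a, w a⁻¹ = star (w a) := by
    intro a
    by_cases ha : a = 1
    · rw [ha, inv_one, hw1, hps.star_eq]
    · have ha' : a⁻¹ ≠ 1 := fun h => ha (inv_eq_one.mp h)
      rw [hwa a ha, hwa _ ha', hus_star, star_mul, star_mul, hps.star_eq, mul_assoc]
  have hwu : ∀ a, ‖w a - u a‖ ≤ 20 * (C ^ 2 * η) := by
    intro a
    have hC2' : (1 : ℝ) ≤ C ^ 2 := one_le_pow₀ hC
    have hCC : C ≤ C ^ 2 := by nlinarith
    have hCη : C * η ≤ C ^ 2 * η := mul_le_mul_of_nonneg_right hCC hη0.le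
    have h1η : η ≤ C ^ 2 * η := by nlinarith
    by_cases ha : a = 1
    · rw [ha, hw1]
      linarith
    · rw [hwa a ha]
      have e : p * us a * p - u a = p * (us a - u a) * p + (p - u 1) * u a * p
          + u 1 * u a * (p - u 1) + (u 1 * u a - u a) * u 1 + (u a * u 1 - u a) := by
        simp only [mul_sub, sub_mul]
        abel
      have n1 : ‖p * (us a - u a) * p‖ ≤ δ := by
        calc ‖p * (us a - u a) * p‖ ≤ ‖p * (us a - u a)‖ * ‖p‖ := norm_mul_le _ _
          _ ≤ (‖p‖ * ‖us a - u a‖) * ‖p‖ :=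
              mul_le_mul_of_nonneg_right (norm_mul_le _ _) (norm_nonneg _)
          _ ≤ (1 * δ) * 1 := by
              refine mul_le_mul (mul_le_mul hpn (hus_near a) (norm_nonneg _) zero_le_one) hpn
                (norm_nonneg _) (by positivity)
          _ = δ := by ring
      have n2 : ‖(p - u 1) * u a * p‖ ≤ 7 * η * C := by
        calc ‖(p - u 1) * u a * p‖ ≤ ‖(p - u 1) * u a‖ * ‖p‖ := norm_mul_le _ _
          _ ≤ (‖p - u 1‖ * ‖u a‖) * ‖p‖ :=
              mul_le_mul_of_nonneg_right (norm_mul_le _ _) (norm_nonneg _)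
          _ ≤ (7 * η * C) * 1 := by
              refine mul_le_mul (mul_le_mul hpu (hb a) (norm_nonneg _) (by positivity)) hpn
                (norm_nonneg _) (by positivity)
          _ = 7 * η * C := by ring
      have n3 : ‖u 1 * u a * (p - u 1)‖ ≤ C * C * (7 * η) := by
        calc ‖u 1 * u a * (p - u 1)‖ ≤ ‖u 1 * u a‖ * ‖p - u 1‖ := norm_mul_le _ _
          _ ≤ (‖u 1‖ * ‖u a‖) * ‖p - u 1‖ :=
              mul_le_mul_of_nonneg_right (norm_mul_le _ _) (norm_nonneg _)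
          _ ≤ (C * C) * (7 * η) := by
              refine mul_le_mul (mul_le_mul (hb 1) (hb a) (norm_nonneg _) (by positivity)) hpu
                (norm_nonneg _) (by positivity)
      have n4 : ‖(u 1 * u a - u a) * u 1‖ ≤ δ * C := by
        refine (norm_mul_le _ _).trans (mul_le_mul ?_ (hb 1) (norm_nonneg _) hδ0.le)
        have := hm 1 a
        rwa [one_mul, norm_sub_rev] at this
      have n5 : ‖u a * u 1 - u a‖ ≤ δ := by
        have := hm a 1
        rwa [mul_one, norm_sub_rev] at this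
      rw [e]
      calc ‖p * (us a - u a) * p + (p - u 1) * u a * p
          + u 1 * u a * (p - u 1) + (u 1 * u a - u a) * u 1 + (u a * u 1 - u a)‖
          ≤ ‖p * (us a - u a) * p‖ + ‖(p - u 1) * u a * p‖
          + ‖u 1 * u a * (p - u 1)‖ + ‖(u 1 * u a - u a) * u 1‖ + ‖u a * u 1 - u a‖ := by
            refine (norm_add_le _ _).trans (add_le_add_left ?_ _)
            refine (norm_add_le _ _).trans (add_le_add_left ?_ _)
            refine (norm_add_le _ _).trans (add_le_add_left ?_ _)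
            exact norm_add_le _ _
        _ ≤ 20 * (C ^ 2 * η) := by nlinarith
  have hC23 : C ^ 2 ≤ C ^ 3 := pow_le_pow_right₀ hC (by norm_num)
  have e2 : C ^ 2 * η ≤ θ := by rw [hθdef]; exact mul_le_mul_of_nonneg_right hC23 hη0.le
  have hwu' : ∀ a, ‖w a - u a‖ ≤ 20 * θ := fun a => (hwu a).trans (by linarith)
  -- norm of u
  have hun : ∀ a, ‖u a‖ ≤ 11 / 10 := by
    intro a
    have h1 : ‖u a * star (u a)‖ = ‖u a‖ * ‖u a‖ := CStarRing.norm_self_mul_star
    have e : u a * star (u a) = u a * (star (u a) - u a⁻¹) + (u a * u a⁻¹ - u 1)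
        + (u 1 - p) + p := by
      rw [mul_sub]
      abel
    have n1 : ‖u a * (star (u a) - u a⁻¹)‖ ≤ C * δ := by
      refine (norm_mul_le _ _).trans (mul_le_mul (hb a) ?_ (norm_nonneg _) hC0.le)
      rw [norm_sub_rev]
      exact hst a
    have n2 : ‖u a * u a⁻¹ - u 1‖ ≤ δ := by
      have := hm a a⁻¹
      rwa [mul_inv_cancel, norm_sub_rev] at this
    have n3 : ‖u 1 - p‖ ≤ 7 * η := by rw [norm_sub_rev]; exact hpu
    have h2 : ‖u a * star (u a)‖ ≤ C * δ + δ + 7 * η + 1 := by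
      rw [e]
      refine (norm_add_le _ _).trans (add_le_add ?_ hpn)
      refine (norm_add_le _ _).trans (add_le_add ?_ n3)
      exact (norm_add_le _ _).trans (add_le_add n1 n2)
    rw [h1] at h2
    by_contra hlt
    push Not at hlt
    nlinarith [norm_nonneg (u a)]
  have hwn : ∀ a, ‖w a‖ ≤ 3 / 2 := by
    intro a
    have e : w a = (w a - u a) + u a := by abel
    rw [e]
    refine (norm_add_le _ _).trans ?_
    have := hwu' a
    have := hun a
    linarith
  have hdef : ∀ a b, ‖w (a * b) - w a * w b‖ ≤ 73 * θ := by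
    intro a b
    have e : w (a * b) - w a * w b = (w (a * b) - u (a * b)) + (u (a * b) - u a * u b)
        + (u a - w a) * u b + w a * (u b - w b) := by
      rw [sub_mul, mul_sub]
      abel
    have n1 := hwu' (a * b)
    have n2 := hm a b
    have n3 : ‖(u a - w a) * u b‖ ≤ 20 * θ * (11 / 10) := by
      refine (norm_mul_le _ _).trans (mul_le_mul ?_ (hun b) (norm_nonneg _) (by positivity))
      rw [norm_sub_rev]
      exact hwu' a
    have n4 : ‖w a * (u b - w b)‖ ≤ 3 / 2 * (20 * θ) := by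
      refine (norm_mul_le _ _).trans (mul_le_mul (hwn a) ?_ (norm_nonneg _) (by positivity))
      rw [norm_sub_rev]
      exact hwu' b
    rw [e]
    calc ‖(w (a * b) - u (a * b)) + (u (a * b) - u a * u b)
        + (u a - w a) * u b + w a * (u b - w b)‖
        ≤ ‖w (a * b) - u (a * b)‖ + ‖u (a * b) - u a * u b‖
        + ‖(u a - w a) * u b‖ + ‖w a * (u b - w b)‖ := by
          refine (norm_add_le _ _).trans (add_le_add_left ?_ _)
          refine (norm_add_le _ _).trans (add_le_add_left ?_ _)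
          exact norm_add_le _ _
      _ ≤ 73 * θ := by linarith
  obtain ⟨v, hv, hvn⟩ := hN F B p w (73 * θ) hps hpp hw1 hwp hwp' hws hwn (by linarith) hdef
  refine ⟨v, hv, fun a => ?_⟩
  have e : u a - v a = (u a - w a) + (w a - v a) := by abel
  have n1 : ‖u a - w a‖ ≤ 20 * θ := by rw [norm_sub_rev]; exact hwu' a
  rw [e]
  refine (norm_add_le _ _).trans ?_
  have := hvn a
  linarith

/-- FINW -/
theorem t_FINW (hP : S_PRJ) (hN : S_NWT) : S_FINW := by
  intro F _ _ B _ u hu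
  classical
  cases nonempty_fintype F
  choose Cf hCf using hu.bdd
  obtain ⟨C, hCdef⟩ : ∃ C : ℝ, C = 1 + ∑ a, |Cf a| := ⟨_, rfl⟩
  have hsum : 0 ≤ ∑ a, |Cf a| := Finset.sum_nonneg fun _ _ => abs_nonneg _
  have hC : 1 ≤ C := by rw [hCdef]; linarith
  have hb : ∀ n a, ‖u n a‖ ≤ C := by
    intro n a
    have h1 : |Cf a| ≤ ∑ a, |Cf a| :=
      Finset.single_le_sum (f := fun a => |Cf a|) (fun _ _ => abs_nonneg _) (Finset.mem_univ a)
    have h2 := hCf a n
    have h3 := le_abs_self (Cf a)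
    rw [hCdef]
    linarith
  have hgood : ∀ ε : ℝ, 0 < ε → ∀ᶠ n in atTop, ∃ v : F → B n, Exa v ∧
      ∀ a, ‖u n a - v a‖ ≤ ε := by
    intro ε hε
    obtain ⟨δ, hδ, H⟩ := fin_form hP hN F C ε hC hε
    have h1 : ∀ᶠ n in atTop, ∀ a b, ‖u n (a * b) - u n a * u n b‖ ≤ δ := by
      rw [eventually_all]
      intro a
      rw [eventually_all]
      intro b
      exact (hu.mul a b).eventually_le_const hδ
    have h2 : ∀ᶠ n in atTop, ∀ a, ‖u n a⁻¹ - star (u n a)‖ ≤ δ := by
      rw [eventually_all]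
      intro a
      exact (hu.st a).eventually_le_const hδ
    filter_upwards [h1, h2] with n h1 h2
    exact H (B n) (u n) (hb n) h1 h2
  have hex : ∀ n, ∃ v : F → B n, Exa v ∧ ∀ ε : ℝ, 0 < ε →
      (∃ v' : F → B n, Exa v' ∧ ∀ a, ‖u n a - v' a‖ ≤ ε) →
      ∀ a, ‖u n a - v a‖ ≤ ε + 1 / ((n : ℝ) + 1) := by
    intro n
    set S : Set ℝ := {ε : ℝ | 0 < ε ∧ ∃ v' : F → B n, Exa v' ∧ ∀ a, ‖u n a - v' a‖ ≤ ε} with hS
    have hne : S.Nonempty := by
      refine ⟨C, by linarith, fun _ => 0, ⟨fun _ _ => by simp, fun _ => by simp⟩, fun a => ?_⟩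
      rw [sub_zero]
      exact hb n a
    have hbdd : BddBelow S := ⟨0, fun ε h => h.1.le⟩
    have hpos : (0 : ℝ) < 1 / ((n : ℝ) + 1) := by positivity
    obtain ⟨ε0, ⟨_, v, hv, hvn⟩, hlt⟩ :=
      exists_lt_of_csInf_lt hne (show sInf S < sInf S + 1 / ((n : ℝ) + 1) by linarith)
    refine ⟨v, hv, fun ε hε hg a => ?_⟩
    have h1 : sInf S ≤ ε := csInf_le hbdd ⟨hε, hg⟩
    have h2 := hvn a
    linarith
  choose v hv hvn using hex
  refine ⟨v, hv, fun g => ?_⟩
  rw [Metric.tendsto_nhds]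
  intro ε hε
  have h1 := hgood (ε / 2) (half_pos hε)
  have h2 : ∀ᶠ n : ℕ in atTop, 1 / ((n : ℝ) + 1) < ε / 2 :=
    tendsto_one_div_add_atTop_nhds_zero_nat.eventually_lt_const (half_pos hε)
  filter_upwards [h1, h2] with n a b
  rw [Real.dist_eq, sub_zero, abs_of_nonneg (norm_nonneg _)]
  have := hvn n (ε / 2) (half_pos hε) a g
  linarith

end Pool.Agent.N81.WS
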